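import Mathlib
import Pool.Agent.L0h42.CL.Stm

/-! GC: the sieve with arbitrary classes along a progression. -/

set_option autoImplicit false
set_option linter.unusedSectionVars false

namespace Pool.Agent.L0h83.CL
open Finset
open Pool.Agent.L0h42.CL
open Pool.Agent.L0h42.TB
open Pool.Agent.H373R2.T7

lemma card_Ioc_filter (Q : ℕ → Prop) [DecidablePred Q] (u1 u2 : ℕ) (hu : u1 ≤ u2) :
    (((Ioc u1 u2).filter Q).card : ℝ) =
      (((Icc 1 u2).filter Q).card : ℝ) - (((Icc 1 u1).filter Q).card : ℝ) := by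
  have h1 : (Icc 1 u2).filter Q = (Icc 1 u1).filter Q ∪ (Ioc u1 u2).filter Q := by
    rw [← filter_union]
    congr 1
    ext t
    rw [mem_union, mem_Icc, mem_Icc, mem_Ioc]
    omega
  have h2 : Disjoint ((Icc 1 u1).filter Q) ((Ioc u1 u2).filter Q) := by
    rw [disjoint_left]
    intro t h3 h4
    have h5 := mem_Icc.1 (mem_filter.1 h3).1
    have h6 := mem_Ioc.1 (mem_filter.1 h4).1
    omega
  rw [h1, card_union_of_disjoint h2]
  push_cast
  ring

open Classical in
lemma gc_raw (P : ℕ → ℕ → Prop) (D τ z u1 u2 : ℕ) (hD : 1 ≤ D) (hr : ∀ p ∈ pz z, ¬ p ∣ D)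
    (hu : u1 ≤ u2) (hP : ∀ p ∈ pz z, ∀ t, P p (t % p) ↔ P p t) (S : Finset ℕ) (hS : S ⊆ pz z) :
    |(((Ioc u1 u2).filter (fun t => t % D = τ % D ∧ ∀ p ∈ S, P p t)).card : ℝ) -
      ((u2 : ℝ) - u1) / D * ∏ p ∈ S, ((((range p).filter (P p)).card : ℝ) / p)| ≤
      2 * ∏ p ∈ S, (((range p).filter (P p)).card : ℝ) := by
  have hSp : ∀ p ∈ S, p.Prime := fun p hp => (mem_pz.1 (hS hp)).2
  have h1 := count_sys P u2 S hSp D hD (fun p hp => hr p (hS hp)) τ
  have h2 := count_sys P u1 S hSp D hD (fun p hp => hr p (hS hp)) τ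
  have h3 : (Ioc u1 u2).filter (fun t => t % D = τ % D ∧ ∀ p ∈ S, P p t) =
      (Ioc u1 u2).filter (fun t => t ≡ τ [MOD D] ∧ ∀ p ∈ S, P p (t % p)) := by
    apply filter_congr
    intro t _
    apply and_congr Iff.rfl
    apply forall_congr'
    intro p
    apply forall_congr'
    intro hp
    exact (hP p (hS hp) t).symm
  rw [h3, card_Ioc_filter _ u1 u2 hu]
  have e : ∀ A2 A1 G B x2 x1 : ℝ, |A2 - x2 / D * G| ≤ B → |A1 - x1 / D * G| ≤ B →
      |A2 - A1 - (x2 - x1) / D * G| ≤ 2 * B := by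
    intro A2 A1 G B x2 x1 h4 h5
    have h6 : A2 - A1 - (x2 - x1) / D * G = (A2 - x2 / D * G) - (A1 - x1 / D * G) := by ring
    rw [h6]
    exact (abs_sub _ _).trans (by linarith)
  exact e _ _ _ _ _ _ h1 h2

theorem t_GC : S_GC := by
  classical
  intro P D τ z u1 u2 r K hK1 hD hr hu hP hcard
  have hu' : (0 : ℝ) ≤ (u2 : ℝ) - u1 := by
    rw [sub_nonneg]
    exact_mod_cast hu
  have hXn : 0 ≤ ((u2 : ℝ) - u1) / D := div_nonneg hu' (Nat.cast_nonneg _)
  have hKr : (1 : ℝ) ≤ K := by exact_mod_cast hK1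
  have hg : ∀ p ∈ pz z, 0 ≤ (((range p).filter (P p)).card : ℝ) / p ∧
      (((range p).filter (P p)).card : ℝ) / p ≤ 1 := by
    intro p hp
    have hp0 : (0 : ℝ) < p := by exact_mod_cast (mem_pz.1 hp).2.pos
    refine ⟨by positivity, ?_⟩
    rw [div_le_one hp0]
    have h1 := card_filter_le (range p) (P p)
    rw [card_range] at h1
    exact_mod_cast h1
  have key := sieve_gen' ((Ioc u1 u2).filter (fun t => t % D = τ % D)) (fun _ => (1 : ℝ))
    (fun _ _ => zero_le_one) P (pz z) (fun p => (((range p).filter (P p)).card : ℝ) / p) hg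
    (((u2 : ℝ) - u1) / D) hXn (fun _ => 2 * (K : ℝ) ^ r) r (by
      intro S hS hc
      have h1 := gc_raw P D τ z u1 u2 hD hr hu hP S hS
      have h2 : ∏ p ∈ S, (((range p).filter (P p)).card : ℝ) ≤ (K : ℝ) ^ r := by
        calc ∏ p ∈ S, (((range p).filter (P p)).card : ℝ) ≤ ∏ _p ∈ S, (K : ℝ) := by
              apply prod_le_prod (fun _ _ => Nat.cast_nonneg _)
              intro p hp
              exact_mod_cast hcard p (hS hp)
          _ = (K : ℝ) ^ S.card := by rw [prod_const]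
          _ ≤ (K : ℝ) ^ r := pow_le_pow_right₀ hKr hc
      refine le_trans (le_of_eq ?_) (h1.trans (mul_le_mul_of_nonneg_left h2 (by norm_num)))
      rw [sum_const, nsmul_eq_mul, mul_one, filter_filter])
  have h1 : (∑ i ∈ ((Ioc u1 u2).filter (fun t => t % D = τ % D)) with ∀ p ∈ pz z, ¬ P p i, (1 : ℝ)) =
      (((Ioc u1 u2).filter (fun t => t % D = τ % D ∧ ∀ p ∈ pz z, ¬ P p t)).card : ℝ) := by
    rw [filter_filter, sum_const, nsmul_eq_mul, mul_one]
  rw [h1] at key
  refine key.trans (add_le_add ?_ ?_)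
  · have h2 := card_small (pz z) r
    have e1 : ∑ j ∈ range (r + 1), ∑ _S ∈ (pz z).powersetCard j, 2 * (K : ℝ) ^ r =
        2 * (((∑ j ∈ range (r + 1), ((pz z).powersetCard j).card : ℕ) : ℝ) * (K : ℝ) ^ r) := by
      push_cast
      rw [sum_mul, mul_sum]
      apply sum_congr rfl
      intro j _
      rw [sum_const, nsmul_eq_mul]
      ring
    rw [e1]
    apply mul_le_mul_of_nonneg_left _ (by norm_num)
    apply mul_le_mul_of_nonneg_right _ (by positivity)
    refine h2.trans (pow_le_pow_left₀ (by positivity) ?_ r)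
    have h3 : ((pz z).card : ℝ) ≤ z := by exact_mod_cast card_pz_le z
    linarith
  · have h2 := es_le (x := fun p => (((range p).filter (P p)).card : ℝ) / p) (T := pz z)
      (fun p hp => (hg p hp).1) r
    have h3 : ∑ p ∈ pz z, (((range p).filter (P p)).card : ℝ) / p ≤ K * (1 + Real.log z) := by
      calc ∑ p ∈ pz z, (((range p).filter (P p)).card : ℝ) / p ≤ ∑ p ∈ pz z, K * (1 / (p : ℝ)) := by
            apply sum_le_sum
            intro p hp
            rw [mul_one_div]
            apply div_le_div_of_nonneg_right _ (Nat.cast_nonneg _)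
            exact_mod_cast hcard p hp
        _ = K * ∑ p ∈ pz z, 1 / (p : ℝ) := by rw [mul_sum]
        _ ≤ _ := mul_le_mul_of_nonneg_left (sum_pz_le z) (by positivity)
    have h4 : es (fun p => (((range p).filter (P p)).card : ℝ) / p) (pz z) r ≤
        Real.exp (3 * (K * (1 + Real.log z)) - r) :=
      h2.trans (Real.exp_le_exp.2 (by linarith))
    calc 2 * (((u2 : ℝ) - u1) / D) * es (fun p => (((range p).filter (P p)).card : ℝ) / p) (pz z) r
        ≤ 2 * (((u2 : ℝ) - u1) / D) * Real.exp (3 * (K * (1 + Real.log z)) - r) :=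
          mul_le_mul_of_nonneg_left h4 (by positivity)
      _ ≤ 4 * (((u2 : ℝ) - u1) / D) * Real.exp (3 * (K * (1 + Real.log z)) - r) := by
          apply mul_le_mul_of_nonneg_right _ (Real.exp_pos _).le
          linarith

end Pool.Agent.L0h83.CL
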