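import Mathlib
import Pool.Agent.L0h42.CL.Stm

/-! TRU: the error of the truncation. -/

set_option autoImplicit false
set_option linter.unusedSectionVars false

namespace Pool.Agent.L0h83.CL
open Finset
open Pool.Agent.L0h42.CL
open Pool.Agent.L0h42.TB
open Pool.Agent.H373R2.T7
open Pool.Agent.H807R2.Dav

open Classical in
lemma mem_NCF {k z R : ℕ} {x : (Fin k → ℕ) × (Fin k → ℕ)} :
    x ∈ NCF k z R ↔ (x.1 ∈ PD (Fin k) z R ∧ x.2 ∈ PD (Fin k) z R) ∧
      ∀ u v, u ≠ v → (lc x u).Coprime (lc x v) := by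
  unfold NCF
  rw [mem_filter, mem_product]
  unfold Conf
  rw [not_not]

open Classical in
lemma tt_sum {k : ℕ} (a0 b0 : ℤ) (h : Fin k → ℕ) (z R X T1 T2 r : ℕ) (hT : T1 ≤ T2)
    {x : (Fin k → ℕ) × (Fin k → ℕ)} (hx : x ∈ NCF k z R) (S : Finset ℕ)
    (hS : S ∈ (pz z).powersetCard r) :
    ∑ a ∈ Icc 1 X, ((TT a0 b0 h T1 T2 (lc x) S a).card : ℝ) ≤
      ((T2 : ℝ) - T1) * ((X : ℝ) / (mo x : ℕ) * ∏ p ∈ S, ((k : ℝ) / p) + (k : ℝ) ^ r) := by
  rw [mem_powersetCard] at hS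
  obtain ⟨⟨hx1, hx2⟩, hc⟩ := mem_NCF.1 hx
  have h1 : ∑ a ∈ Icc 1 X, ((TT a0 b0 h T1 T2 (lc x) S a).card : ℝ) =
      ∑ t ∈ Ioc T1 T2, (((Icc 1 X).filter (fun a => Hit (cq a0 b0 h (t : ℕ)) (lc x) a ∧
        ∀ p ∈ S, Som (cq a0 b0 h (t : ℕ)) p a)).card : ℝ) := by
    have e1 : ∀ a, ((TT a0 b0 h T1 T2 (lc x) S a).card : ℝ) = ∑ t ∈ Ioc T1 T2,
        if (Hit (cq a0 b0 h (t : ℕ)) (lc x) a ∧ ∀ p ∈ S, Som (cq a0 b0 h (t : ℕ)) p a)
          then (1 : ℝ) else 0 := by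
      intro a
      unfold TT
      rw [card_filter]
      push_cast
      rfl
    rw [sum_congr rfl fun a _ => e1 a, sum_comm]
    apply sum_congr rfl
    intro t _
    rw [card_filter]
    push_cast
    rfl
  rw [h1]
  obtain ⟨a1, a2, a3⟩ := lc_rough hx1 hx2
  have h2 : ∀ t ∈ Ioc T1 T2, (((Icc 1 X).filter (fun a => Hit (cq a0 b0 h (t : ℕ)) (lc x) a ∧
        ∀ p ∈ S, Som (cq a0 b0 h (t : ℕ)) p a)).card : ℝ) ≤
      (X : ℝ) / (mo x : ℕ) * ∏ p ∈ S, ((k : ℝ) / p) + (k : ℝ) ^ r := by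
    intro t _
    have h3 := (abs_le.1 (count_raw (cq a0 b0 h (t : ℕ)) (lc x) z X a1 a2 hc S hS.1)).2
    have hnu : ∀ p, (nu (cq a0 b0 h (t : ℕ)) p : ℝ) ≤ k := by
      intro p
      have := nu_le_card (cq a0 b0 h (t : ℕ)) p
      rw [Fintype.card_fin] at this
      exact_mod_cast this
    have h4 : ∏ p ∈ S, (nu (cq a0 b0 h (t : ℕ)) p : ℝ) ≤ (k : ℝ) ^ r := by
      calc ∏ p ∈ S, (nu (cq a0 b0 h (t : ℕ)) p : ℝ) ≤ ∏ _p ∈ S, (k : ℝ) :=
            prod_le_prod (fun _ _ => Nat.cast_nonneg _) (fun p _ => hnu p)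
        _ = (k : ℝ) ^ r := by rw [prod_const, hS.2]
    have h5 : ∏ p ∈ S, ((nu (cq a0 b0 h (t : ℕ)) p : ℝ) / p) ≤ ∏ p ∈ S, ((k : ℝ) / p) := by
      apply prod_le_prod (fun _ _ => by positivity)
      intro p _
      exact div_le_div_of_nonneg_right (hnu p) (Nat.cast_nonneg _)
    have h6 : (X : ℝ) / (mo x : ℕ) * ∏ p ∈ S, ((nu (cq a0 b0 h (t : ℕ)) p : ℝ) / p) ≤
        (X : ℝ) / (mo x : ℕ) * ∏ p ∈ S, ((k : ℝ) / p) := mul_le_mul_of_nonneg_left h5 (by positivity)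
    have h7 : (mo x : ℕ) = ∏ l, lc x l := rfl
    rw [← h7] at h3
    linarith
  refine (sum_le_sum h2).trans (le_of_eq ?_)
  rw [sum_const, nsmul_eq_mul, Nat.card_Ioc, Nat.cast_sub hT]

lemma sum_mo (k z R : ℕ) : ∑ x ∈ NCF k z R, (1 : ℝ) / (mo x : ℕ) ≤ ((1 + Real.log R) ^ 3) ^ k := by
  classical
  refine le_trans ?_ (sum_lc (k := k) z R)
  apply sum_le_sum_of_subset_of_nonneg
  · intro x hx
    have := mem_NCF.1 hx
    exact mem_product.2 this.1
  · intro x _ _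
    positivity

theorem t_TRU : S_TRU := by
  classical
  intro k A B hk a0 b0 h
  refine ⟨0, fun E => ?_⟩
  obtain ⟨U, hU⟩ : ∃ U, U = A + 2 * B + 3 * k + 1 := ⟨_, rfl⟩
  obtain ⟨m2, h2⟩ := choice k E U 40
  obtain ⟨m3, h3⟩ := log_le_t (U + (3 * (k * (1 + E)) + U + 1) * k)
  obtain ⟨m4, h4⟩ := ev_L' 8
  refine ⟨max m2 (max m3 (max m4 3)), ?_⟩
  intro N hN z R X T1 T2 hz1 hz2 hR1 hR hX hT
  have n2 : m2 ≤ N := le_trans (le_max_left _ _) hN
  have nn := le_trans (le_max_right m2 _) hN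
  have n3 : m3 ≤ N := le_trans (le_max_left _ _) nn
  have nn2 := le_trans (le_max_right m3 _) nn
  have n4 : m4 ≤ N := le_trans (le_max_left _ _) nn2
  have hN3 : 3 ≤ N := le_trans (le_max_right _ _) nn2
  have hN1 : 1 ≤ N := by omega
  have hN0 : (0 : ℝ) < N := by exact_mod_cast hN1
  obtain ⟨t, ht0, ht40, hsq⟩ := exists_t N hN1
  have hLm := h3 N n3 t ht0 ht40 hsq
  have hL8 := h4 N n4
  obtain ⟨r, hr1, hr2, hr3⟩ := h2 N n2 z hz2
  set L := Real.log N with hLd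
  have hL1 : 1 ≤ L := by linarith
  have hL0 : 0 < L := by linarith
  have hz : 1 ≤ z := by
    have h6 : (1 : ℝ) ≤ z := by
      rw [pow_zero] at hz1
      exact hz1
    exact_mod_cast h6
  have hkr : (1 : ℝ) ≤ k := by exact_mod_cast hk
  have hr : 1 ≤ r := by
    rcases Nat.eq_zero_or_pos r with h0 | h0
    · exfalso
      rw [h0, Nat.cast_zero, sub_zero] at hr1
      have e1 : (1 : ℝ) ≤ Real.exp (3 * (k * (1 + Real.log z))) := by
        apply Real.one_le_exp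
        have := Real.log_natCast_nonneg z
        positivity
      have e2 : 1 / L ^ U < 1 := by
        rw [div_lt_one (by positivity)]
        apply one_lt_pow₀ (by linarith)
        omega
      linarith
    · exact h0
  have hRr : (1 : ℝ) ≤ R := by exact_mod_cast hR1
  have hlogR : 1 + Real.log R ≤ L := by
    have e1 : Real.log ((R : ℝ) ^ 80) ≤ L := Real.log_le_log (by positivity) (by exact_mod_cast hR)
    rw [Real.log_pow] at e1
    have e2 : 0 ≤ Real.log R := Real.log_nonneg hRr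
    push_cast at e1
    nlinarith
  have hlogR0 : 0 ≤ 1 + Real.log R := by
    have := Real.log_nonneg hRr
    linarith
  have hLt : L ≤ t := le_trans (le_self_pow₀ hL1 (by omega)) hLm
  have ht1 : 1 ≤ t := by linarith
  have hzt : ((z : ℝ) + 1) ^ r ≤ t := by
    apply le_of_pow_le_pow_left₀ (n := 40) (by norm_num) ht0
    rw [ht40]
    exact hr2
  have hRt : (R : ℝ) * R ≤ t := by
    apply le_of_pow_le_pow_left₀ (n := 40) (by norm_num) ht0
    rw [ht40]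
    have e1 : ((R : ℝ) * R) ^ 40 = (R : ℝ) ^ 80 := by ring
    rw [e1]
    exact_mod_cast hR
  have hkr2 : (k : ℝ) ^ r * L ^ U ≤ t := by
    calc (k : ℝ) ^ r * L ^ U ≤ L ^ ((3 * (k * (1 + E)) + U + 1) * k) * L ^ U := mul_le_mul_of_nonneg_right (hr3 k) (by positivity)
      _ = L ^ (U + (3 * (k * (1 + E)) + U + 1) * k) := by rw [← pow_add, add_comm]
      _ ≤ t := hLm
  have hsec : ((z : ℝ) + 1) ^ r * (k : ℝ) ^ r * (R * R) ≤ N / L ^ U := by
    rw [le_div_iff₀ (by positivity)]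
    calc ((z : ℝ) + 1) ^ r * (k : ℝ) ^ r * (R * R) * L ^ U = ((z : ℝ) + 1) ^ r * ((k : ℝ) ^ r * L ^ U) * (R * R) := by ring
      _ ≤ t * t * t := by gcongr
      _ = t ^ 3 := by ring
      _ ≤ t ^ 40 := pow_le_pow_right₀ ht1 (by norm_num)
      _ = N := ht40
  have hexp : (N : ℝ) * Real.exp (3 * (k * (1 + Real.log z)) - r) ≤ N / L ^ U := by
    calc (N : ℝ) * Real.exp (3 * (k * (1 + Real.log z)) - r) ≤ N * (1 / L ^ U) := mul_le_mul_of_nonneg_left hr1 hN0.le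
      _ = _ := by ring
  refine ⟨r, hr, by exact_mod_cast hr2, ?_⟩
  intro Λ hΛ hs
  have hT0 : (0 : ℝ) ≤ (T2 : ℝ) - T1 := by
    rw [sub_nonneg]
    exact_mod_cast hT
  -- the sum over the sets
  have hes : ∑ S ∈ (pz z).powersetCard r, ∏ p ∈ S, ((k : ℝ) / p) ≤ Real.exp (3 * (k * (1 + Real.log z)) - r) := by
    have h5 := es_le (x := fun p => (k : ℝ) / p) (T := pz z) (fun p _ => by positivity) r
    unfold es at h5
    refine h5.trans (Real.exp_le_exp.2 ?_)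
    have h6 : ∑ p ∈ pz z, (k : ℝ) / p ≤ k * (1 + Real.log z) := by
      calc ∑ p ∈ pz z, (k : ℝ) / p = k * ∑ p ∈ pz z, 1 / (p : ℝ) := by
            rw [mul_sum]
            apply sum_congr rfl
            intro p _
            rw [mul_one_div]
        _ ≤ _ := mul_le_mul_of_nonneg_left (sum_pz_le z) (by positivity)
    linarith
  have hcard : (((pz z).powersetCard r).card : ℝ) ≤ ((z : ℝ) + 1) ^ r := by
    have h5 := card_small (pz z) r
    have h6 : (((pz z).powersetCard r).card : ℝ) ≤ ((∑ j ∈ range (r + 1), ((pz z).powersetCard j).card : ℕ) : ℝ) := by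
      have := single_le_sum (f := fun j => ((pz z).powersetCard j).card) (s := range (r + 1)) (fun _ _ => Nat.zero_le _) (mem_range.2 (Nat.lt_succ_self r))
      exact_mod_cast this
    refine h6.trans (h5.trans (pow_le_pow_left₀ (by positivity) ?_ r))
    have : ((pz z).card : ℝ) ≤ z := by exact_mod_cast card_pz_le z
    linarith
  have hterm : ∀ x ∈ NCF k z R, |Λ x.1 * Λ x.2| * ∑ S ∈ (pz z).powersetCard r, ∑ a ∈ Icc 1 X, ((TT a0 b0 h T1 T2 (lc x) S a).card : ℝ) ≤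
      (L ^ B) ^ 2 * (((T2 : ℝ) - T1) * (2 * (N / L ^ U))) * (1 / (mo x : ℕ)) := by
    intro x hx
    obtain ⟨⟨hx1, hx2⟩, hc⟩ := mem_NCF.1 hx
    have hrhs : 0 ≤ (L ^ B) ^ 2 * (((T2 : ℝ) - T1) * (2 * (N / L ^ U))) * (1 / (mo x : ℕ)) := by positivity
    by_cases hz1' : Λ x.1 = 0
    · rw [hz1', zero_mul, abs_zero, zero_mul]; exact hrhs
    by_cases hz2' : Λ x.2 = 0
    · rw [hz2', mul_zero, abs_zero, zero_mul]; exact hrhs
    obtain ⟨a1, a2, a3⟩ := lc_rough hx1 hx2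
    have hD0 : (0 : ℝ) < (mo x : ℕ) := by
      have : 0 < mo x := Nat.pos_of_ne_zero (prod_ne_zero_iff.2 fun l _ => by have := a1 l; omega)
      exact_mod_cast this
    have h5 : (1 : ℝ) ≤ 1 / (mo x : ℕ) * (R * R) := by
      rw [one_div_mul_eq_div, one_le_div hD0]
      have : mo x ≤ R * R := (lc_prod_le x).trans (Nat.mul_le_mul (hs _ hz1') (hs _ hz2'))
      exact_mod_cast this
    have h9 : |Λ x.1 * Λ x.2| ≤ (L ^ B) ^ 2 := by
      rw [abs_mul, sq]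
      exact mul_le_mul (hΛ _ hx1) (hΛ _ hx2) (abs_nonneg _) (by positivity)
    have h10 : ∑ S ∈ (pz z).powersetCard r, ∑ a ∈ Icc 1 X, ((TT a0 b0 h T1 T2 (lc x) S a).card : ℝ) ≤
        ((T2 : ℝ) - T1) * (2 * (N / L ^ U)) * (1 / (mo x : ℕ)) := by
      calc ∑ S ∈ (pz z).powersetCard r, ∑ a ∈ Icc 1 X, ((TT a0 b0 h T1 T2 (lc x) S a).card : ℝ)
          ≤ ∑ S ∈ (pz z).powersetCard r, ((T2 : ℝ) - T1) * ((X : ℝ) / (mo x : ℕ) * ∏ p ∈ S, ((k : ℝ) / p) + (k : ℝ) ^ r) :=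
            sum_le_sum fun S hS => tt_sum a0 b0 h z R X T1 T2 r hT hx S hS
        _ = ((T2 : ℝ) - T1) * ((X : ℝ) / (mo x : ℕ) * ∑ S ∈ (pz z).powersetCard r, ∏ p ∈ S, ((k : ℝ) / p) + ((pz z).powersetCard r).card * (k : ℝ) ^ r) := by
            rw [← mul_sum, sum_add_distrib, ← mul_sum, sum_const, nsmul_eq_mul]
        _ ≤ ((T2 : ℝ) - T1) * ((N : ℝ) / (mo x : ℕ) * Real.exp (3 * (k * (1 + Real.log z)) - r) + ((z : ℝ) + 1) ^ r * (k : ℝ) ^ r * (1 / (mo x : ℕ) * (R * R))) := by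
            apply mul_le_mul_of_nonneg_left _ hT0
            apply add_le_add
            · apply mul_le_mul _ hes (sum_nonneg fun _ _ => prod_nonneg fun _ _ => by positivity) (by positivity)
              apply div_le_div_of_nonneg_right _ hD0.le
              exact_mod_cast hX
            · calc (((pz z).powersetCard r).card : ℝ) * (k : ℝ) ^ r ≤ ((z : ℝ) + 1) ^ r * (k : ℝ) ^ r :=
                    mul_le_mul_of_nonneg_right hcard (by positivity)
                _ ≤ _ := le_mul_of_one_le_right (by positivity) h5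
        _ = ((T2 : ℝ) - T1) * (N * Real.exp (3 * (k * (1 + Real.log z)) - r) + ((z : ℝ) + 1) ^ r * (k : ℝ) ^ r * (R * R)) * (1 / (mo x : ℕ)) := by
            ring
        _ ≤ ((T2 : ℝ) - T1) * (2 * (N / L ^ U)) * (1 / (mo x : ℕ)) := by
            apply mul_le_mul_of_nonneg_right _ (by positivity)
            apply mul_le_mul_of_nonneg_left _ hT0
            linarith
    calc |Λ x.1 * Λ x.2| * ∑ S ∈ (pz z).powersetCard r, ∑ a ∈ Icc 1 X, ((TT a0 b0 h T1 T2 (lc x) S a).card : ℝ)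
        ≤ (L ^ B) ^ 2 * (((T2 : ℝ) - T1) * (2 * (N / L ^ U)) * (1 / (mo x : ℕ))) :=
          mul_le_mul h9 h10 (sum_nonneg fun _ _ => sum_nonneg fun _ _ => Nat.cast_nonneg _) (by positivity)
      _ = _ := by ring
  refine (sum_le_sum hterm).trans ?_
  rw [← mul_sum]
  have e1 : ∑ x ∈ NCF k z R, (1 : ℝ) / (mo x : ℕ) ≤ (L ^ 3) ^ k := by
    refine (sum_mo k z R).trans (pow_le_pow_left₀ (by positivity) ?_ k)
    exact pow_le_pow_left₀ hlogR0 hlogR 3
  calc (L ^ B) ^ 2 * (((T2 : ℝ) - T1) * (2 * (N / L ^ U))) * ∑ x ∈ NCF k z R, (1 : ℝ) / (mo x : ℕ)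
      ≤ (L ^ B) ^ 2 * (((T2 : ℝ) - T1) * (2 * (N / L ^ U))) * (L ^ 3) ^ k :=
        mul_le_mul_of_nonneg_left e1 (by positivity)
    _ = 2 / L * (N * ((T2 : ℝ) - T1) / L ^ A) := by
        rw [hU]
        have e3 : L ^ (A + 2 * B + 3 * k + 1) = L ^ A * (L ^ B) ^ 2 * (L ^ 3) ^ k * L := by
          ring
        rw [e3]
        field_simp
    _ ≤ 1 * (N * ((T2 : ℝ) - T1) / L ^ A) := by
        apply mul_le_mul_of_nonneg_right _ (by positivity)
        rw [div_le_one hL0]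
        linarith
    _ = _ := one_mul _

end Pool.Agent.L0h83.CL
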